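import Mathlib
import Pool.Agent.Helper45.MalcevNegE

set_option autoImplicit false

namespace Pool.Agent.Y241.MC

open Monoid Pool.Agent.Helper45

universe u v w

/-! ### Malcev coherence passes to subsemigroups -/

lemma hasFinite_of_mulEquiv {S : Type u} {T : Type v} [Semigroup S] [Semigroup T] (e : S ≃* T)
    (h : HasFiniteMalcevPresentation S) : HasFiniteMalcevPresentation T := by
  obtain ⟨n, ι, ρ, hρ, hc, hw⟩ := h
  have hlift : ∀ x : FreeSemigroup (Fin n),
      FreeSemigroup.lift (fun i => e (ι i)) x = e (FreeSemigroup.lift ι x) := by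
    intro x
    induction x using FreeSemigroup.recOnMul with
    | ih1 x => simp
    | ih2 x y hx hy => rw [map_mul, map_mul, map_mul, hx, hy]
  refine ⟨n, fun i => e (ι i), ρ, hρ, ?_, ?_⟩
  · have h1 : Set.range (fun i => e (ι i)) = (e : S → T) '' Set.range ι := by
      rw [← Set.range_comp]
      rfl
    rw [h1]
    have h2 := MulHom.map_mclosure (e : S →ₙ* T) (Set.range ι)
    have h3 : ((e : S →ₙ* T) : S → T) '' Set.range ι = (e : S → T) '' Set.range ι := rfl
    rw [h3] at h2
    rw [← h2, hc]
    ext t
    simp only [Subsemigroup.mem_map, Subsemigroup.mem_top, true_and, iff_true]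
    exact ⟨e.symm t, by simp⟩
  · intro x y
    rw [hlift, hlift, e.injective.eq_iff]
    exact hw x y

lemma malcevCoherent_of_injective {S : Type u} {T : Type v} [Semigroup S] [Semigroup T]
    (f : S →ₙ* T) (hf : Function.Injective f) (h : MalcevCoherent T) : MalcevCoherent S := by
  rintro U ⟨T0, hT0, rfl⟩
  have h1 := h ((Subsemigroup.closure T0).map f)
    ⟨f '' T0, hT0.image _, (MulHom.map_mclosure f T0).symm⟩
  exact hasFinite_of_mulEquiv
    ((Subsemigroup.closure T0).equivMapOfInjective f hf).symm h1

/-! ### Injective maps of free products -/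

section

variable {M : Type u} {N : Type v} [Group M] [Group N]

/-- The map of free products induced by a homomorphism of groups. -/
def cmap (f : M →* N) : Coprod (FreeMonoid Unit) M →* Coprod (FreeMonoid Unit) N :=
  Coprod.map (MonoidHom.id _) f

lemma evL_cmap (f : M →* N) (p : Coprod (FreeMonoid Unit) M) :
    ∀ l : List M, l ≠ [] → evL N (cmap f p) (l.map f) = (evL M p l).map f := by
  induction p using coprod_ind with
  | h1 => intro l _; rw [map_one, evL_one, evL_one]
  | hx q ih =>
    intro l hl
    rw [map_mul, evL_mul, evL_mul, ih l hl]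
    have h1 : cmap f (Coprod.inl (FreeMonoid.of ())) = Coprod.inl (FreeMonoid.of ()) := by
      simp [cmap]
    rw [h1, evL_inl_of, evL_inl_of, List.map_cons, map_one]
  | hm m q ih =>
    intro l hl
    rw [map_mul, evL_mul, evL_mul, ih l hl]
    have h1 : cmap f (Coprod.inr m) = Coprod.inr (f m) := by
      simp [cmap]
    obtain ⟨h, t, ht⟩ := List.exists_cons_of_ne_nil (evL_ne_nil q l hl)
    rw [h1, ht, List.map_cons, evL_inr, evL_inr, List.map_cons, map_mul]

lemma cmap_injective (f : M →* N) (hf : Function.Injective f) : Function.Injective (cmap f) := by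
  intro p q hpq
  apply evL_injective
  have h1 := evL_cmap f p [1] (by simp)
  have h2 := evL_cmap f q [1] (by simp)
  rw [hpq, h2] at h1
  exact (List.map_injective_iff.mpr hf) h1.symm

end

/-- The free product with the free monoid of rank one embeds in the free product with any free
monoid on a nonempty alphabet. -/
lemma exists_alphabet (X : Type u) [Nonempty X] (M : Type v) [Group M] :
    ∃ f : Coprod (FreeMonoid Unit) M →* Coprod (FreeMonoid X) M, Function.Injective f := by
  obtain ⟨x⟩ := ‹Nonempty X›
  let g : Coprod (FreeMonoid Unit) M →* Coprod (FreeMonoid X) M :=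
    Coprod.map (FreeMonoid.map (fun _ => x)) (MonoidHom.id M)
  let r : Coprod (FreeMonoid X) M →* Coprod (FreeMonoid Unit) M :=
    Coprod.map (FreeMonoid.map (fun _ => ())) (MonoidHom.id M)
  refine ⟨g, ?_⟩
  have h : r.comp g = MonoidHom.id _ := by
    ext y
    · simp [r, g]
    · simp [r, g]
  intro p q hpq
  have h1 := DFunLike.congr_fun h p
  have h2 := DFunLike.congr_fun h q
  simp only [MonoidHom.comp_apply, MonoidHom.id_apply] at h1 h2
  rw [← h1, ← h2, hpq]

/-! ### Embedding in a group -/

section

variable (X : Type u) (M : Type v) [Group M]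

/-- Each letter becomes an element of the group times the letter of the free monoid of rank one. -/
def enc : Coprod (FreeMonoid X) M →* Coprod (FreeMonoid Unit) (M × FreeGroup X) :=
  Coprod.lift (FreeMonoid.lift (fun x =>
    Coprod.inr ((1 : M), FreeGroup.of x) * Coprod.inl (FreeMonoid.of ())))
    (Coprod.inr.comp (MonoidHom.inl M (FreeGroup X)))

open Classical in
/-- Reading off the letter. -/
noncomputable def dec (g : FreeGroup X) : FreeMonoid X :=
  if h : ∃ x, g = FreeGroup.of x then FreeMonoid.of h.choose else 1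

lemma dec_of (x : X) : dec X (FreeGroup.of x) = FreeMonoid.of x := by
  have h : ∃ y, FreeGroup.of x = FreeGroup.of y := ⟨x, rfl⟩
  rw [dec, dif_pos h]
  congr 1
  exact (FreeGroup.of_injective h.choose_spec).symm

lemma dec_one : dec X 1 = 1 := by
  rw [dec, dif_neg]
  rintro ⟨x, hx⟩
  exact FreeGroup.of_ne_one x hx.symm

/-- Reading off an element of the free product. -/
noncomputable def bk : List (M × FreeGroup X) → Coprod (FreeMonoid X) M
  | [] => 1
  | a :: t => Coprod.inr a.1 * Coprod.inl (dec X a.2) * bk t

lemma bk_enc (p : Coprod (FreeMonoid X) M) : ∀ l : List (M × FreeGroup X), l ≠ [] →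
    bk X M (evL _ (enc X M p) l) = p * bk X M l := by
  induction p using Coprod.induction_on' with
  | one => intro l _; rw [map_one, evL_one, one_mul]
  | inl_mul w q hq =>
    induction w using FreeMonoid.recOn with
    | one => simpa using hq
    | of_mul x w ih =>
      intro l hl
      have e : (Coprod.inl (FreeMonoid.of x * w) * q : Coprod (FreeMonoid X) M) =
          Coprod.inl (FreeMonoid.of x) * (Coprod.inl w * q) := by rw [map_mul, mul_assoc]
      rw [e, map_mul (enc X M), evL_mul]
      have h1 : enc X M (Coprod.inl (FreeMonoid.of x)) =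
          Coprod.inr ((1 : M), FreeGroup.of x) * Coprod.inl (FreeMonoid.of ()) := by
        simp [enc]
      rw [h1, evL_mul, evL_inl_of, evL_inr, mul_one, bk, ih l hl, dec_of, map_one, one_mul,
        mul_assoc _ (Coprod.inl w * q)]
  | inr_mul m q hq =>
    intro l hl
    rw [map_mul, evL_mul]
    have h1 : enc X M (Coprod.inr m) = Coprod.inr (m, (1 : FreeGroup X)) := by
      simp [enc]
    have h2 := hq l hl
    obtain ⟨h, t, ht⟩ := List.exists_cons_of_ne_nil (evL_ne_nil (enc X M q) l hl)
    rw [ht] at h2
    have h3 : bk X M (((m, (1 : FreeGroup X)) * h) :: t) = Coprod.inr m * bk X M (h :: t) := by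
      rw [bk, bk]
      simp only [Prod.fst_mul, Prod.snd_mul, one_mul, map_mul, mul_assoc]
    rw [h1, ht, evL_inr, h3, h2, mul_assoc]

lemma enc_injective : Function.Injective (enc X M) := by
  intro p q hpq
  have h1 := bk_enc X M p [1] (by simp)
  have h2 := bk_enc X M q [1] (by simp)
  have h3 : bk X M [1] = 1 := by
    simp [bk, dec_one]
  rw [h3, mul_one] at h1 h2
  rw [← h1, ← h2, hpq]

/-- The free product of a free monoid and a group embeds in a group. -/
theorem embeds : ∃ (G : Type (max u v)) (_ : Group G) (f : Coprod (FreeMonoid X) M →* G),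
    Function.Injective f :=
  ⟨Equiv.Perm (ℤ → M × FreeGroup X) × Multiplicative ℤ, inferInstance,
    (embG (M × FreeGroup X)).comp (enc X M), (embG_injective (M := M × FreeGroup X)).comp (enc_injective X M)⟩

end

/-! ### Free subgroups of the free group of rank two -/

/-- the shift of the free group on the integers -/
noncomputable def shiftZ : MulAut (FreeGroup ℤ) := FreeGroup.freeGroupCongr (Equiv.addRight (1 : ℤ))

theorem shiftZ_zpow (k n : ℤ) : (shiftZ ^ k) (FreeGroup.of n) = FreeGroup.of (n + k) := by
  have h1 : ∀ n : ℤ, shiftZ (FreeGroup.of n) = FreeGroup.of (n + 1) := fun n => by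
    unfold shiftZ
    simp
  have h2 : ∀ n : ℤ, shiftZ⁻¹ (FreeGroup.of n) = FreeGroup.of (n - 1) := fun n => by
    rw [← sub_add_cancel n 1, ← h1, MulAut.inv_apply_self]
    simp
  induction k using Int.induction_on with
  | zero => simp
  | succ i ih =>
    rw [add_comm (i : ℤ) 1, zpow_add, zpow_one, MulAut.mul_apply, ih, h1]
    congr 1
    ring
  | pred i ih =>
    rw [sub_eq_add_neg, add_comm (-(i : ℤ)) (-1), zpow_add, zpow_neg_one, MulAut.mul_apply, ih, h2]
    congr 1
    ring

/-- the elements `a ^ i * b * a ^ (-i)` -/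
def conjPow (i : ℕ) : FreeGroup (Fin 2) :=
  FreeGroup.of 0 ^ i * FreeGroup.of 1 * (FreeGroup.of 0 ^ i)⁻¹

theorem lift_conjPow_injective : Function.Injective (FreeGroup.lift conjPow) := by
  let φ : Multiplicative ℤ →* MulAut (FreeGroup ℤ) := zpowersHom _ shiftZ
  let ψ : FreeGroup (Fin 2) →* FreeGroup ℤ ⋊[φ] Multiplicative ℤ := FreeGroup.lift fun i =>
    if i = 0 then SemidirectProduct.inr (Multiplicative.ofAdd 1)
      else SemidirectProduct.inl (FreeGroup.of 0)
  have hcomp : ψ.comp (FreeGroup.lift conjPow) =
      (SemidirectProduct.inl).comp (FreeGroup.map (fun n : ℕ => (n : ℤ))) := by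
    apply FreeGroup.ext_hom
    intro i
    have h0 : ψ (FreeGroup.of 0) = SemidirectProduct.inr (Multiplicative.ofAdd 1) := by
      simp [ψ]
    have h1 : ψ (FreeGroup.of 1) = SemidirectProduct.inl (FreeGroup.of 0) := by
      simp [ψ]
    have h2 : φ (Multiplicative.ofAdd 1 ^ i) (FreeGroup.of 0) = FreeGroup.of ((i : ℕ) : ℤ) := by
      have h3 : φ (Multiplicative.ofAdd 1 ^ i) = shiftZ ^ (i : ℤ) := by
        simp [φ, zpowersHom_apply]
      rw [h3, shiftZ_zpow, zero_add]
    rw [MonoidHom.comp_apply, MonoidHom.comp_apply, FreeGroup.lift_apply_of, FreeGroup.map.of,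
      conjPow, map_mul, map_mul, map_inv, map_pow, h0, h1, ← map_pow, ← map_inv, ← h2,
      SemidirectProduct.inl_aut]
  have hinj : Function.Injective (ψ.comp (FreeGroup.lift conjPow)) := by
    rw [hcomp]
    exact SemidirectProduct.inl_injective.comp (FreeGroup.map_injective Nat.cast_injective)
  intro x y hxy
  exact hinj (congrArg ψ hxy)

theorem exists_three : ∃ f : FreeGroup (Fin 3) →* FreeGroup (Fin 2), Function.Injective f :=
  ⟨(FreeGroup.lift conjPow).comp (FreeGroup.map (fun i : Fin 3 => (i : ℕ))),
    lift_conjPow_injective.comp (FreeGroup.map_injective Fin.val_injective)⟩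

/-! ### The theorems -/

/-- The free product with a free monoid of a group that contains the product of a free group of
rank two and the integers is not Malcev coherent. -/
theorem not_coherent (X : Type u) [Nonempty X] (M : Type v) [Group M]
    (f : FreeGroup (Fin 2) × Multiplicative ℤ →* M) (hf : Function.Injective f) :
    ¬ MalcevCoherent (Coprod (FreeMonoid X) M) := by
  intro h
  obtain ⟨g, hg⟩ := exists_three
  obtain ⟨r, hr⟩ := exists_alphabet X M
  let j : MM →* M := f.comp (MonoidHom.prodMap g (MonoidHom.id _))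
  have hj : Function.Injective j := by
    apply hf.comp
    rintro ⟨a, b⟩ ⟨c, d⟩ h0
    simp only [MonoidHom.coe_prodMap, Prod.map_apply, MonoidHom.id_apply, Prod.mk.injEq] at h0
    rw [Prod.mk.injEq]
    exact ⟨hg h0.1, h0.2⟩
  let t : Coprod (FreeMonoid Unit) MM →* Coprod (FreeMonoid X) M := r.comp (cmap j)
  have ht : Function.Injective t := hr.comp (cmap_injective j hj)
  exact not_malcevCoherent_coprod (malcevCoherent_of_injective t.toMulHom ht h)

theorem products (X : Type u) [Nonempty X] (F : Type v) (H : Type w) [Group F] [Group H]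
    (hF : ∃ K : Subgroup F, K.FiniteIndex ∧ IsFreeGroup K)
    (g : FreeGroup (Fin 2) →* F) (hg : Function.Injective g)
    (hH : ∃ K : Subgroup H, K.FiniteIndex ∧ Group.IsNilpotent K)
    (h : H) (hh : ∀ n : ℕ, 0 < n → h ^ n ≠ 1) :
    MalcevCoherent (F × H) ∧ ¬ MalcevCoherent (Coprod (FreeMonoid X) (F × H)) := by
  refine ⟨malcevCoherent_prod F H hF hH, ?_⟩
  refine not_coherent X (F × H) (MonoidHom.prodMap g (zpowersHom H h)) ?_
  have hz : Function.Injective (zpowersHom H h) := by
    rw [injective_iff_map_eq_one]
    intro a ha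
    rw [zpowersHom_apply] at ha
    by_contra hne
    have ha0 : Multiplicative.toAdd a ≠ 0 := fun h0 => hne (by
      rw [← ofAdd_toAdd a, h0]
      rfl)
    have h1 : h ^ (Multiplicative.toAdd a).natAbs = 1 := by
      rcases Int.natAbs_eq (Multiplicative.toAdd a) with h2 | h2
      · rw [h2, zpow_natCast] at ha
        exact ha
      · rw [h2, zpow_neg, zpow_natCast, inv_eq_one] at ha
        exact ha
    exact hh _ (Int.natAbs_pos.mpr ha0) h1
  rintro ⟨a, b⟩ ⟨c, d⟩ h0
  simp only [MonoidHom.coe_prodMap, Prod.map_apply, Prod.mk.injEq] at h0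
  rw [Prod.mk.injEq]
  exact ⟨hg h0.1, hz h0.2⟩

end Pool.Agent.Y241.MC
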